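import Mathlib

/-!
# Monotone edge deletion for the mean subtree order: graphs with at most one bridge

For a finite simple graph `G` let `mean G` be the mean number of vertices of a subtree of `G`
(a subtree is a subgraph, not necessarily induced, that is a tree; single vertices count).
We show that in every graph with at least two edges there are at least two edges `e` with
`mean (G - e) < mean G`.  Hence every connected graph that is not a tree and has at most one
bridge has an edge `e` such that `G - e` is connected and `mean (G - e) < mean G`.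
-/

namespace Pool.Agent.Results.MP_d417b4_co.TwoEdges

open scoped Classical

/-- The set of all subtrees of `G`: the subgraphs of `G` (not necessarily induced) which are trees
(connected, with at least one vertex, and without cycles). -/
noncomputable def subtrees {V : Type} [Fintype V] (G : SimpleGraph V) : Finset G.Subgraph :=
  (Set.toFinite {T : G.Subgraph | T.coe.IsTree}).toFinset

/-- The mean subtree order of `G`: the mean number of vertices over all subtrees of `G`. -/
noncomputable def mean {V : Type} [Fintype V] (G : SimpleGraph V) : ℝ :=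
  (∑ T ∈ subtrees G, (T.verts.ncard : ℝ)) / ((subtrees G).card : ℝ)

section aux

variable {V : Type} [Fintype V] (G : SimpleGraph V)

lemma mem_subtrees (T : G.Subgraph) : T ∈ subtrees G ↔ T.coe.IsTree := by
  simp [subtrees]

/-- A subgraph of `G - e`, seen as a subgraph of `G`. -/
def lift {G : SimpleGraph V} {e : Sym2 V} (T : (G.deleteEdges {e}).Subgraph) : G.Subgraph where
  verts := T.verts
  Adj := T.Adj
  adj_sub := fun h => ((SimpleGraph.deleteEdges_adj).1 (T.adj_sub h)).1
  edge_vert := T.edge_vert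
  symm := T.symm

lemma lift_isTree {G : SimpleGraph V} {e : Sym2 V} (T : (G.deleteEdges {e}).Subgraph) :
    (lift T).coe.IsTree ↔ T.coe.IsTree := Iff.rfl

lemma not_mem_edgeSet_lift {G : SimpleGraph V} {e : Sym2 V}
    (T : (G.deleteEdges {e}).Subgraph) : e ∉ (lift T).edgeSet := by
  intro h
  induction e using Sym2.ind with
  | _ x y =>
    have h1 : T.Adj x y := h
    have h2 := ((SimpleGraph.deleteEdges_adj).1 (T.adj_sub h1)).2
    exact h2 rfl

lemma sum_deleteEdges (e : Sym2 V) (f : ℕ → ℝ) :
    ∑ T ∈ subtrees (G.deleteEdges {e}), f T.verts.ncard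
      = ∑ T ∈ (subtrees G).filter (fun T => e ∉ T.edgeSet), f T.verts.ncard := by
  refine Finset.sum_bij (fun T _ => lift T) ?_ ?_ ?_ ?_
  · intro T hT
    rw [Finset.mem_filter]
    refine ⟨?_, not_mem_edgeSet_lift T⟩
    rw [mem_subtrees] at hT ⊢
    exact (lift_isTree T).2 hT
  · intro T _ T' _ h
    have h1 : T.verts = T'.verts := congrArg (fun S : G.Subgraph => S.verts) h
    have h2 : T.Adj = T'.Adj := congrArg (fun S : G.Subgraph => S.Adj) h
    exact SimpleGraph.Subgraph.ext h1 h2
  · intro T hT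
    rw [Finset.mem_filter] at hT
    obtain ⟨hT1, hT2⟩ := hT
    refine ⟨{ verts := T.verts
              Adj := T.Adj
              adj_sub := ?_
              edge_vert := T.edge_vert
              symm := T.symm }, ?_, rfl⟩
    · intro v w h
      rw [SimpleGraph.deleteEdges_adj]
      refine ⟨T.adj_sub h, ?_⟩
      intro h3
      apply hT2
      rw [← (Set.mem_singleton_iff.1 h3)]
      exact h
    · rw [mem_subtrees] at hT1 ⊢
      exact hT1
  · intro T _
    rfl

lemma ncard_edgeSet {T : G.Subgraph} (hT : T.coe.IsTree) :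
    T.edgeSet.ncard + 1 = T.verts.ncard := by
  have h1 : T.coe.edgeFinset.card + 1 = Fintype.card T.verts := hT.card_edgeFinset
  have h2 : T.edgeSet.ncard = T.coe.edgeSet.ncard := by
    rw [← SimpleGraph.Subgraph.image_coe_edgeSet_coe T]
    exact Set.ncard_image_of_injective _ (Sym2.map.injective Subtype.val_injective)
  have h3 : T.coe.edgeSet.ncard = T.coe.edgeFinset.card := by
    rw [← SimpleGraph.coe_edgeFinset T.coe, Set.ncard_coe_finset]
  have h4 : T.verts.ncard = Fintype.card T.verts := by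
    rw [← Nat.card_coe_set_eq, Nat.card_eq_fintype_card]
  rw [h2, h3, h4, h1]

lemma singleton_mem (v : V) : G.singletonSubgraph v ∈ subtrees G := by
  rw [mem_subtrees]
  refine ⟨(SimpleGraph.Subgraph.connected_iff').1
    (SimpleGraph.Subgraph.singletonSubgraph_connected), ?_⟩
  apply SimpleGraph.IsAcyclic.of_card_le_two
  have h : ENat.card (G.singletonSubgraph v).verts = 1 := by
    rw [ENat.card_eq_coe_natCard, Nat.card_coe_set_eq, SimpleGraph.singletonSubgraph_verts,
      Set.ncard_singleton]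
    rfl
  rw [h]
  exact one_le_two

lemma pair_mem {v w : V} (hvw : G.Adj v w) : G.subgraphOfAdj hvw ∈ subtrees G := by
  rw [mem_subtrees]
  refine ⟨(SimpleGraph.Subgraph.connected_iff').1
    (SimpleGraph.Subgraph.subgraphOfAdj_connected hvw), ?_⟩
  apply SimpleGraph.IsAcyclic.of_card_le_two
  have h : ENat.card (G.subgraphOfAdj hvw).verts = 2 := by
    rw [ENat.card_eq_coe_natCard, Nat.card_coe_set_eq, SimpleGraph.subgraphOfAdj_verts,
      Set.ncard_pair hvw.ne]
    rfl
  rw [h]

lemma sum_sub_mean [Nonempty V] :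
    ∑ T ∈ subtrees G, ((T.verts.ncard : ℝ) - mean G) = 0 := by
  have hN : ((subtrees G).card : ℝ) ≠ 0 := by
    have : 0 < (subtrees G).card :=
      Finset.card_pos.2 ⟨_, singleton_mem G (Classical.arbitrary V)⟩
    exact_mod_cast this.ne'
  rw [Finset.sum_sub_distrib, Finset.sum_const, nsmul_eq_mul]
  unfold mean
  rw [mul_div_cancel₀ _ hN, sub_self]

lemma mean_sub_mean [Nonempty V] (e : Sym2 V) :
    ((subtrees (G.deleteEdges {e})).card : ℝ) * (mean G - mean (G.deleteEdges {e}))
      = ∑ T ∈ (subtrees G).filter (fun T => e ∈ T.edgeSet), ((T.verts.ncard : ℝ) - mean G) := by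
  have hN : ((subtrees (G.deleteEdges {e})).card : ℝ) ≠ 0 := by
    have : 0 < (subtrees (G.deleteEdges {e})).card :=
      Finset.card_pos.2 ⟨_, singleton_mem _ (Classical.arbitrary V)⟩
    exact_mod_cast this.ne'
  have h1 := sum_deleteEdges G e (fun n => (n : ℝ) - mean G)
  have h2 := Finset.sum_filter_add_sum_filter_not (subtrees G) (fun T => e ∈ T.edgeSet)
    (fun T => (T.verts.ncard : ℝ) - mean G)
  rw [sum_sub_mean G] at h2
  have h3 : ∑ T ∈ subtrees (G.deleteEdges {e}), ((T.verts.ncard : ℝ) - mean G)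
      = ((subtrees (G.deleteEdges {e})).card : ℝ) * (mean (G.deleteEdges {e}) - mean G) := by
    rw [Finset.sum_sub_distrib, Finset.sum_const, nsmul_eq_mul, mul_sub]
    congr 1
    rw [mean, mul_div_cancel₀ _ hN]
  linarith

/-- The double counting: summing over the edges other than `f` the deviations of the subtrees
containing the edge. -/
lemma double_count [Nonempty V] (f : Sym2 V) :
    ∑ e ∈ (G.edgeSet \ {f}).toFinite.toFinset,
      ∑ T ∈ (subtrees G).filter (fun T => e ∈ T.edgeSet), ((T.verts.ncard : ℝ) - mean G)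
      = ∑ T ∈ subtrees G, ((T.edgeSet \ {f}).ncard : ℝ) * ((T.verts.ncard : ℝ) - mean G) := by
  have h1 : ∀ e : Sym2 V, ∑ T ∈ (subtrees G).filter (fun T => e ∈ T.edgeSet),
      ((T.verts.ncard : ℝ) - mean G)
      = ∑ T ∈ subtrees G, if e ∈ T.edgeSet then ((T.verts.ncard : ℝ) - mean G) else 0 := by
    intro e
    rw [Finset.sum_filter]
  have h2 : ∀ T ∈ subtrees G, ∑ e ∈ (G.edgeSet \ {f}).toFinite.toFinset,
      (if e ∈ T.edgeSet then ((T.verts.ncard : ℝ) - mean G) else 0)
      = ((T.edgeSet \ {f}).ncard : ℝ) * ((T.verts.ncard : ℝ) - mean G) := by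
    intro T hT
    rw [← Finset.sum_filter, Finset.sum_const, nsmul_eq_mul]
    have h3 : (G.edgeSet \ {f}).toFinite.toFinset.filter (fun e => e ∈ T.edgeSet)
        = (T.edgeSet \ {f}).toFinite.toFinset := by
      ext e
      simp only [Finset.mem_filter, Set.Finite.mem_toFinset, Set.mem_sdiff]
      exact ⟨fun h => ⟨h.2, h.1.2⟩, fun h => ⟨⟨T.edgeSet_subset h.1, h.2⟩, h.1⟩⟩
    rw [h3, ← Set.ncard_eq_toFinset_card (T.edgeSet \ {f}) (T.edgeSet \ {f}).toFinite]
  rw [Finset.sum_congr rfl (fun e _ => h1 e), Finset.sum_comm, Finset.sum_congr rfl h2]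

lemma card_pos [Nonempty V] : 0 < ((subtrees G).card : ℝ) := by
  have : 0 < (subtrees G).card :=
    Finset.card_pos.2 ⟨_, singleton_mem G (Classical.arbitrary V)⟩
  exact_mod_cast this

/-- Covariances as sums over pairs. -/
lemma sum_pairs [Nonempty V] (x : G.Subgraph → ℝ) :
    2 * ((subtrees G).card : ℝ) * ∑ T ∈ subtrees G, x T * ((T.verts.ncard : ℝ) - mean G)
      = ∑ T ∈ subtrees G, ∑ T' ∈ subtrees G,
        (x T - x T') * ((T.verts.ncard : ℝ) - (T'.verts.ncard : ℝ)) := by
  have hm : ((subtrees G).card : ℝ) * mean G = ∑ T ∈ subtrees G, (T.verts.ncard : ℝ) := by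
    unfold mean
    rw [mul_div_cancel₀ _ (card_pos G).ne']
  have h1 : ∑ T ∈ subtrees G, ∑ T' ∈ subtrees G,
        (x T - x T') * ((T.verts.ncard : ℝ) - (T'.verts.ncard : ℝ))
      = ∑ T ∈ subtrees G, ∑ T' ∈ subtrees G, (x T * (T.verts.ncard : ℝ)
        - x T * (T'.verts.ncard : ℝ) - x T' * (T.verts.ncard : ℝ)
        + x T' * (T'.verts.ncard : ℝ)) := by
    refine Finset.sum_congr rfl fun T _ => Finset.sum_congr rfl fun T' _ => ?_
    ring
  rw [h1]
  simp only [Finset.sum_add_distrib, Finset.sum_sub_distrib, Finset.sum_const, nsmul_eq_mul,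
    ← Finset.mul_sum, ← Finset.sum_mul, mul_sub]
  rw [← hm]
  ring

/-- With one excluded edge all pairs contribute a nonnegative amount. -/
lemma pair_nonneg (f : Sym2 V) {T T' : G.Subgraph} (hT : T ∈ subtrees G) (hT' : T' ∈ subtrees G) :
    0 ≤ (((T.edgeSet \ {f}).ncard : ℝ) - ((T'.edgeSet \ {f}).ncard : ℝ))
      * ((T.verts.ncard : ℝ) - (T'.verts.ncard : ℝ)) := by
  have key : ∀ S : G.Subgraph, S ∈ subtrees G → ∃ b : ℕ, b ≤ 1 ∧
      S.verts.ncard = (S.edgeSet \ {f}).ncard + b + 1 := by
    intro S hS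
    rw [mem_subtrees] at hS
    have h1 := ncard_edgeSet G hS
    by_cases hf : f ∈ S.edgeSet
    · have h2 := Set.ncard_sdiff_singleton_add_one hf S.edgeSet.toFinite
      exact ⟨1, le_rfl, by omega⟩
    · have h2 : S.edgeSet \ {f} = S.edgeSet := Set.sdiff_singleton_eq_self hf
      exact ⟨0, zero_le_one, by rw [h2]; omega⟩
  obtain ⟨b, hb, h1⟩ := key T hT
  obtain ⟨b', hb', h1'⟩ := key T' hT'
  rw [h1, h1']
  generalize (T.edgeSet \ {f}).ncard = x
  generalize (T'.edgeSet \ {f}).ncard = y
  rcases lt_trichotomy x y with h | h | h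
  · have h2 : (x : ℝ) + 1 ≤ y := by exact_mod_cast h
    have h3 : (b : ℝ) ≤ 1 := by exact_mod_cast hb
    have h4 : (0 : ℝ) ≤ b' := Nat.cast_nonneg _
    apply mul_nonneg_of_nonpos_of_nonpos
    · linarith
    · push_cast
      linarith
  · rw [h, sub_self, zero_mul]
  · have h2 : (y : ℝ) + 1 ≤ x := by exact_mod_cast h
    have h3 : (b' : ℝ) ≤ 1 := by exact_mod_cast hb'
    have h4 : (0 : ℝ) ≤ b := Nat.cast_nonneg _
    apply mul_nonneg
    · linarith
    · push_cast
      linarith

/-- For every edge `f`, if there is another edge then there is an edge `e` other than `f` whose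
deletion lowers the mean. -/
lemma exists_edge_ne (f e₀ : Sym2 V) (he₀ : e₀ ∈ G.edgeSet) (hne₀ : e₀ ≠ f) :
    ∃ e ∈ G.edgeSet, e ≠ f ∧ mean (G.deleteEdges {e}) < mean G := by
  induction e₀ using Sym2.ind with
  | _ v w =>
    have hvw : G.Adj v w := (SimpleGraph.mem_edgeSet G).1 he₀
    have hne : Nonempty V := ⟨v⟩
    -- the sum over the pairs is positive
    have hpos : 0 < ∑ T ∈ subtrees G, ∑ T' ∈ subtrees G,
        (((T.edgeSet \ {f}).ncard : ℝ) - ((T'.edgeSet \ {f}).ncard : ℝ))
          * ((T.verts.ncard : ℝ) - (T'.verts.ncard : ℝ)) := by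
      refine Finset.sum_pos' (fun T hT => Finset.sum_nonneg fun T' hT' =>
        pair_nonneg G f hT hT') ⟨_, pair_mem G hvw, ?_⟩
      refine Finset.sum_pos' (fun T' hT' => pair_nonneg G f (pair_mem G hvw) hT')
        ⟨_, singleton_mem G v, ?_⟩
      have h1 : ((G.subgraphOfAdj hvw).edgeSet \ {f}).ncard = 1 := by
        rw [SimpleGraph.edgeSet_subgraphOfAdj, Set.sdiff_singleton_eq_self, Set.ncard_singleton]
        intro h
        exact hne₀ (Set.mem_singleton_iff.1 h).symm
      have h2 : ((G.singletonSubgraph v).edgeSet \ {f}).ncard = 0 := by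
        rw [SimpleGraph.edgeSet_singletonSubgraph, Set.empty_sdiff, Set.ncard_empty]
      rw [h1, h2, SimpleGraph.subgraphOfAdj_verts, SimpleGraph.singletonSubgraph_verts,
        Set.ncard_pair hvw.ne, Set.ncard_singleton]
      norm_num
    rw [← sum_pairs G (fun T => ((T.edgeSet \ {f}).ncard : ℝ)), ← double_count G f] at hpos
    have hN : 0 < 2 * ((subtrees G).card : ℝ) := mul_pos two_pos (card_pos G)
    have h3 := (mul_pos_iff_of_pos_left hN).1 hpos
    obtain ⟨e, he, hAe⟩ : ∃ e ∈ (G.edgeSet \ {f}).toFinite.toFinset,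
        0 < ∑ T ∈ (subtrees G).filter (fun T => e ∈ T.edgeSet),
          ((T.verts.ncard : ℝ) - mean G) := by
      by_contra hcon
      push Not at hcon
      exact absurd (Finset.sum_nonpos hcon) (not_le.2 h3)
    have he' := (Set.Finite.mem_toFinset _).1 he
    refine ⟨e, he'.1, fun h => he'.2 (Set.mem_singleton_iff.2 h), ?_⟩
    rw [← mean_sub_mean G e] at hAe
    have h4 := (mul_pos_iff_of_pos_left (card_pos (G.deleteEdges {e}))).1 hAe
    linarith

end aux

/-- (1) In every finite simple graph with at least two edges there are at least two edges `e` with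
`mean (G - e) < mean G`.
(2) Every connected graph `G` that is not a tree and has at most one bridge has an edge `e` such
that `G - e` is connected and `mean (G - e) < mean G`. -/
theorem result :
    (∀ (V : Type) [Fintype V] (G : SimpleGraph V), 2 ≤ G.edgeSet.ncard →
      ∃ e ∈ G.edgeSet, ∃ e' ∈ G.edgeSet, e ≠ e' ∧
        mean (G.deleteEdges {e}) < mean G ∧ mean (G.deleteEdges {e'}) < mean G) ∧
    (∀ (V : Type) [Fintype V] (G : SimpleGraph V), G.Connected → ¬ G.IsTree →
      (∀ e ∈ G.edgeSet, ∀ e' ∈ G.edgeSet, ¬ (G.deleteEdges {e}).Connected →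
        ¬ (G.deleteEdges {e'}).Connected → e = e') →
      ∃ e ∈ G.edgeSet, (G.deleteEdges {e}).Connected ∧
        mean (G.deleteEdges {e}) < mean G) := by
  have h0 : ∀ (V : Type) [Fintype V] (G : SimpleGraph V), 2 ≤ G.edgeSet.ncard →
      ∃ e ∈ G.edgeSet, ∃ e' ∈ G.edgeSet, e ≠ e' ∧
        mean (G.deleteEdges {e}) < mean G ∧ mean (G.deleteEdges {e'}) < mean G := by
    intro V _ G hG
    obtain ⟨a, ha, b, hb, hab⟩ := (Set.one_lt_ncard (G.edgeSet.toFinite)).1 hG
    obtain ⟨e, he, hea, hme⟩ := exists_edge_ne G a b hb hab.symm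
    obtain ⟨c, hc, hce⟩ : ∃ c ∈ G.edgeSet, c ≠ e := ⟨a, ha, hea.symm⟩
    obtain ⟨e', he', hee', hme'⟩ := exists_edge_ne G e c hc hce
    exact ⟨e, he, e', he', hee'.symm, hme, hme'⟩
  refine ⟨h0, ?_⟩
  intro V _ G hconn hnt hbr
  have h2 : 2 ≤ G.edgeSet.ncard := by
    by_contra hcon
    apply hnt
    refine ⟨hconn, SimpleGraph.IsAcyclic.of_card_le_two ?_⟩
    have h1 := hconn.card_vert_le_card_edgeSet_add_one
    rw [Nat.card_coe_set_eq] at h1
    rw [ENat.card_eq_coe_natCard]
    exact_mod_cast (by omega : Nat.card V ≤ 2)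
  obtain ⟨e, he, e', he', hne, hm, hm'⟩ := h0 V G h2
  by_cases hc : (G.deleteEdges {e}).Connected
  · exact ⟨e, he, hc, hm⟩
  · by_cases hc' : (G.deleteEdges {e'}).Connected
    · exact ⟨e', he', hc', hm'⟩
    · exact absurd (hbr e he e' he' hc hc') hne

end Pool.Agent.Results.MP_d417b4_co.TwoEdges
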